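import Pool.Agent.helper79.WB.SpecII

/-! Project wb, row MU: few vectors with given determinant. -/

set_option autoImplicit false

namespace Pool.Agent.WB

theorem MU_diff (η : V3) (h : IsCoprime (η 0) (η 1)) (ζ ζ₀ : V3) (hd : dt ζ η = dt ζ₀ η) :
    ∃ t : ℤ, ζ 0 - ζ₀ 0 = t * η 0 ∧ ζ 1 - ζ₀ 1 = t * η 1 := by
  obtain ⟨a, b, hab⟩ := h
  unfold dt at hd
  have e : (ζ 0 - ζ₀ 0) * η 1 = (ζ 1 - ζ₀ 1) * η 0 := by linear_combination hd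
  refine ⟨a * (ζ 0 - ζ₀ 0) + b * (ζ 1 - ζ₀ 1), ?_, ?_⟩
  · linear_combination (-(ζ 0 - ζ₀ 0)) * hab + b * e
  · linear_combination (-(ζ 1 - ζ₀ 1)) * hab - a * e

theorem MU_one (η : V3) (c : ℤ) (S : Finset V3) (X L : ℝ) (hL : 0 < L) (hX : 0 ≤ X)
    (hcop : IsCoprime (η 0) (η 1)) (hLm : L ≤ max |((η 0 : ℤ) : ℝ)| |((η 1 : ℤ) : ℝ)|)
    (hS : ∀ ζ ∈ S, |((ζ 0 : ℤ) : ℝ)| ≤ X ∧ |((ζ 1 : ℤ) : ℝ)| ≤ X ∧ dt ζ η = c)
    (hinj : ∀ ζ ∈ S, ∀ ζ' ∈ S, ζ 0 = ζ' 0 → ζ 1 = ζ' 1 → ζ = ζ') :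
    (S.card : ℝ) ≤ 4 * (X / L) + 1 := by
  classical
  have hXL : 0 ≤ X / L := div_nonneg hX hL.le
  rcases S.eq_empty_or_nonempty with rfl | ⟨ζ₀, hζ₀⟩
  · simp only [Finset.card_empty, Nat.cast_zero]; linarith
  · have hex : ∀ ζ ∈ S, ∃ t : ℤ, ζ 0 - ζ₀ 0 = t * η 0 ∧ ζ 1 - ζ₀ 1 = t * η 1 := fun ζ hζ =>
      MU_diff η hcop ζ ζ₀ (by rw [(hS ζ hζ).2.2, (hS ζ₀ hζ₀).2.2])
    let f : V3 → ℤ := fun ζ => if h : ζ ∈ S then (hex ζ h).choose else 0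
    have hf : ∀ ζ ∈ S, ζ 0 - ζ₀ 0 = f ζ * η 0 ∧ ζ 1 - ζ₀ 1 = f ζ * η 1 := by
      intro ζ hζ
      have := (hex ζ hζ).choose_spec
      simp only [f, dif_pos hζ]
      exact this
    obtain ⟨n, hn⟩ : ∃ n : ℕ, n = ⌊2 * (X / L)⌋₊ := ⟨_, rfl⟩
    have hn2 : (n : ℝ) ≤ 2 * (X / L) := by
      rw [hn]; exact Nat.floor_le (by positivity)
    have habs : ∀ ζ ∈ S, |((f ζ : ℤ) : ℝ)| ≤ 2 * (X / L) := by
      intro ζ hζ
      obtain ⟨h0, h1⟩ := hf ζ hζ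
      obtain ⟨a0, a1, _⟩ := hS ζ hζ
      obtain ⟨b0, b1, _⟩ := hS ζ₀ hζ₀
      have k0 : |((f ζ : ℤ) : ℝ)| * |((η 0 : ℤ) : ℝ)| ≤ 2 * X := by
        rw [← abs_mul]
        have : ((f ζ : ℤ) : ℝ) * ((η 0 : ℤ) : ℝ) = ((ζ 0 : ℤ) : ℝ) - ((ζ₀ 0 : ℤ) : ℝ) := by
          exact_mod_cast h0.symm
        rw [this]
        calc |((ζ 0 : ℤ) : ℝ) - ((ζ₀ 0 : ℤ) : ℝ)| ≤ |((ζ 0 : ℤ) : ℝ)| + |((ζ₀ 0 : ℤ) : ℝ)| :=
              abs_sub _ _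
          _ ≤ 2 * X := by linarith
      have k1 : |((f ζ : ℤ) : ℝ)| * |((η 1 : ℤ) : ℝ)| ≤ 2 * X := by
        rw [← abs_mul]
        have : ((f ζ : ℤ) : ℝ) * ((η 1 : ℤ) : ℝ) = ((ζ 1 : ℤ) : ℝ) - ((ζ₀ 1 : ℤ) : ℝ) := by
          exact_mod_cast h1.symm
        rw [this]
        calc |((ζ 1 : ℤ) : ℝ) - ((ζ₀ 1 : ℤ) : ℝ)| ≤ |((ζ 1 : ℤ) : ℝ)| + |((ζ₀ 1 : ℤ) : ℝ)| :=
              abs_sub _ _
          _ ≤ 2 * X := by linarith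
      have k : |((f ζ : ℤ) : ℝ)| * L ≤ 2 * X := by
        have hfa : 0 ≤ |((f ζ : ℤ) : ℝ)| := abs_nonneg _
        rcases le_max_iff.1 hLm with h | h
        · exact (mul_le_mul_of_nonneg_left h hfa).trans k0
        · exact (mul_le_mul_of_nonneg_left h hfa).trans k1
      have : |((f ζ : ℤ) : ℝ)| ≤ 2 * X / L := by rwa [le_div_iff₀ hL]
      calc |((f ζ : ℤ) : ℝ)| ≤ 2 * X / L := this
        _ = 2 * (X / L) := by ring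
    have hmap : ∀ ζ ∈ S, f ζ ∈ Finset.Icc (-(n : ℤ)) (n : ℤ) := by
      intro ζ hζ
      have h1 := habs ζ hζ
      have h2 : (f ζ).natAbs ≤ n := by
        rw [hn]
        apply Nat.le_floor
        have : (((f ζ).natAbs : ℕ) : ℝ) = |((f ζ : ℤ) : ℝ)| := by
          rw [Nat.cast_natAbs, Int.cast_abs]
        rw [this]; exact h1
      rw [Finset.mem_Icc]
      omega
    have hinj' : Set.InjOn f (S : Set V3) := by
      intro ζ hζ ζ' hζ' he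
      obtain ⟨h0, h1⟩ := hf ζ hζ
      obtain ⟨g0, g1⟩ := hf ζ' hζ'
      rw [← he] at g0 g1
      apply hinj ζ hζ ζ' hζ'
      · linarith
      · linarith
    have hcard : S.card ≤ (Finset.Icc (-(n : ℤ)) (n : ℤ)).card :=
      Finset.card_le_card_of_injOn f hmap hinj'
    have hcard2 : (Finset.Icc (-(n : ℤ)) (n : ℤ)).card = 2 * n + 1 := by
      rw [Int.card_Icc]; omega
    rw [hcard2] at hcard
    have : (S.card : ℝ) ≤ 2 * (n : ℝ) + 1 := by exact_mod_cast hcard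
    linarith

theorem MU : MU_stmt := by
  classical
  intro η l S X L hL hX hcop hLm hS hinj
  have h1 : ((S.filter fun ζ => dt ζ η = (l : ℤ)).card : ℝ) ≤ 4 * (X / L) + 1 := by
    refine MU_one η (l : ℤ) _ X L hL hX hcop hLm ?_ ?_
    · intro ζ hζ
      rw [Finset.mem_filter] at hζ
      exact ⟨(hS ζ hζ.1).1, (hS ζ hζ.1).2.1, hζ.2⟩
    · intro ζ hζ ζ' hζ'
      exact hinj ζ (Finset.mem_filter.1 hζ).1 ζ' (Finset.mem_filter.1 hζ').1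
  have h2 : ((S.filter fun ζ => dt ζ η = -(l : ℤ)).card : ℝ) ≤ 4 * (X / L) + 1 := by
    refine MU_one η (-(l : ℤ)) _ X L hL hX hcop hLm ?_ ?_
    · intro ζ hζ
      rw [Finset.mem_filter] at hζ
      exact ⟨(hS ζ hζ.1).1, (hS ζ hζ.1).2.1, hζ.2⟩
    · intro ζ hζ ζ' hζ'
      exact hinj ζ (Finset.mem_filter.1 hζ).1 ζ' (Finset.mem_filter.1 hζ').1
  have hsub : S ⊆ (S.filter fun ζ => dt ζ η = (l : ℤ)) ∪ (S.filter fun ζ => dt ζ η = -(l : ℤ)) := by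
    intro ζ hζ
    rw [Finset.mem_union, Finset.mem_filter, Finset.mem_filter]
    have := (hS ζ hζ).2.2
    rcases Int.natAbs_eq (dt ζ η) with h | h
    · left; rw [this] at h; exact ⟨hζ, h⟩
    · right; rw [this] at h; exact ⟨hζ, h⟩
  have hc : S.card ≤ (S.filter fun ζ => dt ζ η = (l : ℤ)).card +
      (S.filter fun ζ => dt ζ η = -(l : ℤ)).card :=
    (Finset.card_le_card hsub).trans (Finset.card_union_le _ _)
  have hc' : (S.card : ℝ) ≤ ((S.filter fun ζ => dt ζ η = (l : ℤ)).card : ℝ) +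
      ((S.filter fun ζ => dt ζ η = -(l : ℤ)).card : ℝ) := by exact_mod_cast hc
  linarith

end Pool.Agent.WB
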