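import Pool.Agent.helper65.WB.BP

set_option autoImplicit false

/-! Module RED of project WB (MP_07c750_an): reduced density matrices of an eigenvector. -/

namespace Pool.Agent.helper65.WB

open Finset Matrix
open scoped ComplexOrder

/-- `u` on the first `n` places, `z` on the others -/
def RED_gl {D n N : ℕ} (u : Fin n → Fin D) (z : Fin N → Fin D) : Fin N → Fin D :=
  fun i => if h : i.val < n then u ⟨i.val, h⟩ else z i

theorem RED_gl_zero {D N : ℕ} (u : Fin 0 → Fin D) (z : Fin N → Fin D) : RED_gl u z = z := by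
  funext i
  unfold RED_gl
  rw [dif_neg (Nat.not_lt_zero _)]

theorem RED_gl_snoc {D n N : ℕ} (hn : n < N) (u : Fin n → Fin D) (c : Fin D) (z : Fin N → Fin D) :
    RED_gl (Fin.snoc (α := fun _ => Fin D) u c : Fin (n + 1) → Fin D) z =
      RED_gl u (Function.update z ⟨n, hn⟩ c) := by
  funext i
  unfold RED_gl
  by_cases h : i.val < n
  · rw [dif_pos h, dif_pos (by omega)]
    simp [Fin.snoc, h]
  · rw [dif_neg h]
    by_cases h2 : i.val = n
    · have h3 : i = ⟨n, hn⟩ := Fin.ext h2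
      subst h3
      rw [dif_pos (by omega), Function.update_self]
      simp [Fin.snoc]
    · have h3 : i ≠ ⟨n, hn⟩ := fun h' => h2 (congrArg Fin.val h')
      rw [dif_neg (by omega), Function.update_of_ne h3]

theorem RED_gl_cons {D n N : ℕ} (u : Fin n → Fin D) (c c' : Fin D) (z : Fin N → Fin D) :
    RED_gl (Fin.cons (α := fun _ => Fin D) c u : Fin (n + 1) → Fin D)
      (Fin.cons (α := fun _ => Fin D) c' z : Fin (N + 1) → Fin D) =
      Fin.cons (α := fun _ => Fin D) c (RED_gl u z) := by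
  funext i
  refine Fin.cases ?_ (fun j => ?_) i
  · unfold RED_gl
    rw [dif_pos (by simp)]
    rfl
  · rw [Fin.cons_succ]
    unfold RED_gl
    by_cases h : j.val < n
    · rw [dif_pos h, dif_pos (by simpa using h)]
      rfl
    · rw [dif_neg h, dif_neg (by simpa using h)]
      rfl

theorem RED_gl_init {D n N : ℕ} (u : Fin n → Fin D) (z : Fin (N + 1) → Fin D) :
    (Fin.init (RED_gl u z) : Fin N → Fin D) = RED_gl u (Fin.init z) := by
  funext i
  unfold RED_gl Fin.init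
  rfl

theorem RED_gl_last {D n N : ℕ} (hn : n ≤ N) (u : Fin n → Fin D) (z : Fin (N + 1) → Fin D) :
    RED_gl u z (Fin.last N) = z (Fin.last N) := by
  unfold RED_gl
  rw [dif_neg (by simp; omega)]

/-- averaging over the letter at one place -/
theorem RED_upd {D N : ℕ} {E : Type} [AddCommMonoid E] (i : Fin N) (f : (Fin N → Fin D) → E) :
    ∑ c, ∑ z : Fin N → Fin D, f (Function.update z i c) = D • ∑ z, f z := by
  rw [← Finset.sum_product']
  have h1 : ∑ p ∈ (Finset.univ : Finset (Fin D)) ×ˢ (Finset.univ : Finset (Fin N → Fin D)),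
      f (Function.update p.2 i p.1) =
      ∑ p ∈ (Finset.univ : Finset (Fin D)) ×ˢ (Finset.univ : Finset (Fin N → Fin D)), f p.2 := by
    apply Finset.sum_nbij' (fun p => (p.2 i, Function.update p.2 i p.1))
      (fun p => (p.2 i, Function.update p.2 i p.1))
    · intro p _; simp
    · intro p _; simp
    · intro p _; simp
    · intro p _; simp
    · intro p _; simp
  rw [h1, Finset.sum_product]
  simp

theorem RED_sum {D N : ℕ} {E : Type} [AddCommMonoid E] (n : ℕ) (hn : n ≤ N)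
    (f : (Fin N → Fin D) → E) :
    ∑ u : Fin n → Fin D, ∑ z : Fin N → Fin D, f (RED_gl u z) = D ^ n • ∑ z, f z := by
  induction n with
  | zero =>
    simp only [RED_gl_zero]
    simp
  | succ n ih =>
    have h1 : ∑ u : Fin (n + 1) → Fin D, ∑ z : Fin N → Fin D, f (RED_gl u z) =
        ∑ u : Fin n → Fin D, ∑ c : Fin D, ∑ z : Fin N → Fin D,
          f (RED_gl (Fin.snoc (α := fun _ => Fin D) u c : Fin (n + 1) → Fin D) z) := by
      rw [← (Fin.snocEquiv (fun _ : Fin (n + 1) => Fin D)).sum_comp, Fintype.sum_prod_type,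
        Finset.sum_comm]
      rfl
    rw [h1]
    have h2 : ∀ u : Fin n → Fin D, ∑ c : Fin D, ∑ z : Fin N → Fin D,
          f (RED_gl (Fin.snoc (α := fun _ => Fin D) u c : Fin (n + 1) → Fin D) z) =
        D • ∑ z, f (RED_gl u z) := by
      intro u
      rw [← RED_upd ⟨n, hn⟩ (fun z => f (RED_gl u z))]
      apply Finset.sum_congr rfl
      intro c _
      apply Finset.sum_congr rfl
      intro z _
      rw [RED_gl_snoc hn]
    simp only [h2]
    rw [← Finset.smul_sum, ih (by omega), smul_smul, pow_succ']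

theorem RED_gl_gl {D n N : ℕ} (u w : Fin n → Fin D) (z : Fin N → Fin D) :
    RED_gl u (RED_gl w z) = RED_gl u z := by
  funext i
  unfold RED_gl
  by_cases h : i.val < n
  · rw [dif_pos h, dif_pos h]
  · rw [dif_neg h, dif_neg h, dif_neg h]

theorem RED_gl_castLE {D n N : ℕ} (hn : n ≤ N) (u : Fin n → Fin D) (z : Fin N → Fin D)
    (j : Fin n) : RED_gl u z (Fin.castLE hn j) = u j := by
  unfold RED_gl
  rw [dif_pos (by simp)]
  rfl

theorem RED_gl_self {D n N : ℕ} (hn : n ≤ N) (z : Fin N → Fin D) :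
    RED_gl (fun j : Fin n => z (Fin.castLE hn j)) z = z := by
  funext i
  unfold RED_gl
  by_cases h : i.val < n
  · rw [dif_pos h]
    rfl
  · rw [dif_neg h]

/-- the state as a matrix -/
def RED_M {D N : ℕ} (n : ℕ) (ψ : (Fin N → Fin D) → ℂ) :
    Matrix (Fin n → Fin D) (Fin N → Fin D) ℂ := fun u z => ψ (RED_gl u z)

/-- the reduced density matrix, up to a scalar -/
noncomputable def RED_R {D N : ℕ} (n : ℕ) (ψ : (Fin N → Fin D) → ℂ) :
    Matrix (Fin n → Fin D) (Fin n → Fin D) ℂ := RED_M n ψ * (RED_M n ψ)ᴴ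

theorem RED_R_apply {D N : ℕ} (n : ℕ) (ψ : (Fin N → Fin D) → ℂ) (u v : Fin n → Fin D) :
    RED_R n ψ u v = ∑ z, ψ (RED_gl u z) * star (ψ (RED_gl v z)) := rfl

theorem RED_R_scale {D N : ℕ} (n : ℕ) (ψ : (Fin N → Fin D) → ℂ) (a : ℂ) (ha : a * star a = 1) :
    RED_R n (fun x => a * ψ x) = RED_R n ψ := by
  ext u v
  rw [RED_R_apply, RED_R_apply]
  apply Finset.sum_congr rfl
  intro z _
  rw [star_mul']
  calc a * ψ (RED_gl u z) * (star a * star (ψ (RED_gl v z)))
      = (a * star a) * (ψ (RED_gl u z) * star (ψ (RED_gl v z))) := by ring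
    _ = _ := by rw [ha, one_mul]

theorem RED_right {D N : ℕ} (n : ℕ) (hn : n < N) (ψ : (Fin N → Fin D) → ℂ) (u v : Fin n → Fin D) :
    ∑ c, RED_R (n + 1) ψ (Fin.snoc (α := fun _ => Fin D) u c) (Fin.snoc (α := fun _ => Fin D) v c) =
      D • RED_R n ψ u v := by
  rw [RED_R_apply, ← RED_upd ⟨n, hn⟩ (fun z => ψ (RED_gl u z) * star (ψ (RED_gl v z)))]
  apply Finset.sum_congr rfl
  intro c _
  rw [RED_R_apply]
  apply Finset.sum_congr rfl
  intro z _
  rw [RED_gl_snoc hn, RED_gl_snoc hn]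

theorem RED_left0 {D k : ℕ} (n : ℕ) (ψ : (Fin (k + 1) → Fin D) → ℂ) (u v : Fin n → Fin D) :
    ∑ c, RED_R (n + 1) ψ (Fin.cons (α := fun _ => Fin D) c u) (Fin.cons (α := fun _ => Fin D) c v) =
      D • ∑ y : Fin D, ∑ z : Fin k → Fin D, ψ (Fin.cons (α := fun _ => Fin D) y (RED_gl u z)) *
        star (ψ (Fin.cons (α := fun _ => Fin D) y (RED_gl v z))) := by
  rw [Finset.smul_sum]
  apply Finset.sum_congr rfl
  intro c _
  rw [RED_R_apply, ← (Fin.consEquiv (fun _ : Fin (k + 1) => Fin D)).sum_comp, Fintype.sum_prod_type]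
  have h : ∀ c' : Fin D, ∑ z : Fin k → Fin D,
      ψ (RED_gl (Fin.cons (α := fun _ => Fin D) c u : Fin (n + 1) → Fin D)
        (Fin.consEquiv (fun _ : Fin (k + 1) => Fin D) (c', z))) *
      star (ψ (RED_gl (Fin.cons (α := fun _ => Fin D) c v : Fin (n + 1) → Fin D)
        (Fin.consEquiv (fun _ : Fin (k + 1) => Fin D) (c', z)))) =
      ∑ z : Fin k → Fin D, ψ (Fin.cons (α := fun _ => Fin D) c (RED_gl u z)) *
        star (ψ (Fin.cons (α := fun _ => Fin D) c (RED_gl v z))) := by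
    intro c'
    apply Finset.sum_congr rfl
    intro z _
    rw [show (Fin.consEquiv (fun _ : Fin (k + 1) => Fin D)) (c', z) =
      (Fin.cons (α := fun _ => Fin D) c' z : Fin (k + 1) → Fin D) from rfl, RED_gl_cons, RED_gl_cons]
  rw [Finset.sum_congr rfl (fun c' _ => h c')]
  simp

theorem RED_step {D k : ℕ} (U : Matrix (Fin D) (Fin D) ℂ)
    (hU : U ∈ Matrix.unitaryGroup (Fin D) ℂ) (n : ℕ) (hn : n ≤ k)
    (ψ : (Fin (k + 1) → Fin D) → ℂ) (u v : Fin n → Fin D) :
    RED_R n (baker U ψ) u v =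
      ∑ y : Fin D, ∑ z : Fin k → Fin D, ψ (Fin.cons (α := fun _ => Fin D) y (RED_gl u z)) *
        star (ψ (Fin.cons (α := fun _ => Fin D) y (RED_gl v z))) := by
  rw [RED_R_apply, ← (Fin.snocEquiv (fun _ : Fin (k + 1) => Fin D)).sum_comp, Fintype.sum_prod_type,
    Finset.sum_comm, Finset.sum_comm (s := (Finset.univ : Finset (Fin D)))]
  apply Finset.sum_congr rfl
  intro z _
  have h1 : ∀ a : Fin D, ∀ w : Fin n → Fin D,
      baker U ψ (RED_gl w (Fin.snocEquiv (fun _ : Fin (k + 1) => Fin D) (a, z))) =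
      ∑ y, U a y * ψ (Fin.cons (α := fun _ => Fin D) y (RED_gl w z)) := by
    intro a w
    unfold baker
    rw [RED_gl_last hn, RED_gl_init]
    have e1 : (Fin.snocEquiv (fun _ : Fin (k + 1) => Fin D)) (a, z) (Fin.last k) = a := by
      simp [Fin.snocEquiv]
    have e2 : (Fin.init ((Fin.snocEquiv (fun _ : Fin (k + 1) => Fin D)) (a, z)) : Fin k → Fin D) = z := by
      simp [Fin.snocEquiv]
    rw [e1, e2]
  simp only [h1]
  rw [Matrix.mem_unitaryGroup_iff'] at hU
  have h2 : ∀ y y' : Fin D, ∑ a, star (U a y') * U a y = if y' = y then 1 else 0 := by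
    intro y y'
    have := congrFun (congrFun hU y') y
    rw [Matrix.mul_apply, Matrix.one_apply] at this
    simpa only [Matrix.star_apply] using this
  have h3 : ∀ a : Fin D, (∑ y, U a y * ψ (Fin.cons (α := fun _ => Fin D) y (RED_gl u z))) *
      star (∑ y, U a y * ψ (Fin.cons (α := fun _ => Fin D) y (RED_gl v z))) =
      ∑ y, ∑ y', (star (U a y') * U a y) * (ψ (Fin.cons (α := fun _ => Fin D) y (RED_gl u z)) *
        star (ψ (Fin.cons (α := fun _ => Fin D) y' (RED_gl v z)))) := by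
    intro a
    rw [star_sum, Finset.sum_mul_sum]
    apply Finset.sum_congr rfl
    intro y _
    apply Finset.sum_congr rfl
    intro y' _
    rw [star_mul']
    ring
  rw [Finset.sum_congr rfl (fun a _ => h3 a), Finset.sum_comm]
  apply Finset.sum_congr rfl
  intro y _
  rw [Finset.sum_comm]
  simp only [← Finset.sum_mul, h2]
  simp

/-- the sum of all squares -/
theorem RED_zero_trace {D k : ℕ} (ψ : (Fin (k + 1) → Fin D) → ℂ) (u : Fin 0 → Fin D) :
    RED_R 0 ψ u u = ∑ x, ψ x * star (ψ x) := by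
  rw [RED_R_apply]
  simp only [RED_gl_zero]

theorem RED_iso {D k : ℕ} (U : Matrix (Fin D) (Fin D) ℂ)
    (hU : U ∈ Matrix.unitaryGroup (Fin D) ℂ) (ψ : (Fin (k + 1) → Fin D) → ℂ) :
    ∑ x, baker U ψ x * star (baker U ψ x) = ∑ x, ψ x * star (ψ x) := by
  have u : Fin 0 → Fin D := Fin.elim0
  rw [← RED_zero_trace (baker U ψ) u, RED_step U hU 0 (Nat.zero_le _) ψ u u]
  rw [← (Fin.consEquiv (fun _ : Fin (k + 1) => Fin D)).sum_comp (fun x => ψ x * star (ψ x)),
    Fintype.sum_prod_type]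
  simp only [RED_gl_zero]
  rfl

theorem RED_norm_sq {D k : ℕ} {ψ : (Fin (k + 1) → Fin D) → ℂ} (h : ∑ x, ‖ψ x‖ ^ 2 = 1) :
    ∑ x, ψ x * star (ψ x) = 1 := by
  have e : ∀ x, ψ x * star (ψ x) = ((‖ψ x‖ ^ 2 : ℝ) : ℂ) := by
    intro x
    rw [Complex.star_def, Complex.mul_conj, Complex.normSq_eq_norm_sq]
  simp only [e]
  rw [← Complex.ofReal_sum, h, Complex.ofReal_one]

theorem RED_unimod {D k : ℕ} (U : Matrix (Fin D) (Fin D) ℂ)
    (hU : U ∈ Matrix.unitaryGroup (Fin D) ℂ) (ψ : (Fin (k + 1) → Fin D) → ℂ)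
    (h : ∑ x, ‖ψ x‖ ^ 2 = 1) (a : ℂ) (ha : ∀ x, baker U ψ x = a * ψ x) : a * star a = 1 := by
  have h1 := RED_iso U hU ψ
  rw [RED_norm_sq h] at h1
  have h2 : ∀ x, baker U ψ x * star (baker U ψ x) = (a * star a) * (ψ x * star (ψ x)) := by
    intro x
    rw [ha x, star_mul']
    ring
  simp only [h2] at h1
  rw [← Finset.mul_sum, RED_norm_sq h, mul_one] at h1
  exact h1

theorem RED_baker_smul {D k : ℕ} (U : Matrix (Fin D) (Fin D) ℂ) (a : ℂ)
    (ψ : (Fin (k + 1) → Fin D) → ℂ) :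
    baker U (fun x => a * ψ x) = fun x => a * baker U ψ x := by
  funext x
  unfold baker
  rw [Finset.mul_sum]
  apply Finset.sum_congr rfl
  intro y _
  ring

theorem RED_iter {D k : ℕ} (U : Matrix (Fin D) (Fin D) ℂ) (ψ : (Fin (k + 1) → Fin D) → ℂ) (a : ℂ)
    (ha : ∀ x, baker U ψ x = a * ψ x) (t : ℕ) : (baker U)^[t] ψ = fun x => a ^ t * ψ x := by
  induction t with
  | zero =>
    funext x
    simp
  | succ t ih =>
    rw [Function.iterate_succ_apply', ih, RED_baker_smul]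
    funext x
    rw [ha x, pow_succ]
    ring

/-- `U` on the first `n` places -/
def RED_A {D : ℕ} (U : Matrix (Fin D) (Fin D) ℂ) (N n : ℕ) (i : Fin N) : Matrix (Fin D) (Fin D) ℂ :=
  if i.val < n then U else 1

/-- `U` on the other places -/
def RED_A' {D : ℕ} (U : Matrix (Fin D) (Fin D) ℂ) (N n : ℕ) (i : Fin N) : Matrix (Fin D) (Fin D) ℂ :=
  if i.val < n then 1 else U

theorem RED_A_mul {D : ℕ} (U : Matrix (Fin D) (Fin D) ℂ) (N n : ℕ) :
    tpow U N = TP (RED_A U N n) * TP (RED_A' U N n) := by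
  rw [TP_mul]
  have : (fun i => RED_A U N n i * RED_A' U N n i) = fun _ => U := by
    funext i
    unfold RED_A RED_A'
    by_cases h : i.val < n
    · rw [if_pos h, if_pos h, mul_one]
    · rw [if_neg h, if_neg h, one_mul]
  rw [this]
  rfl

theorem RED_R1 {D N : ℕ} (U : Matrix (Fin D) (Fin D) ℂ) (n : ℕ) (hn : n ≤ N)
    (φ : (Fin N → Fin D) → ℂ) :
    RED_M n ((TP (RED_A U N n)).mulVec φ) = tpow U n * RED_M n φ := by
  ext u z
  rw [Matrix.mul_apply]
  unfold RED_M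
  simp only [Matrix.mulVec, dotProduct, TP, tpow]
  symm
  apply Finset.sum_of_injOn (fun u' : Fin n → Fin D => RED_gl u' z)
  · intro u1 _ u2 _ h12
    funext j
    have := congrFun h12 (Fin.castLE hn j)
    simpa only [RED_gl_castLE] using this
  · intro u' _
    exact Finset.mem_coe.mpr (Finset.mem_univ _)
  · intro x _ hx
    have h1 : ∃ i : Fin N, ¬ i.val < n ∧ z i ≠ x i := by
      by_contra hcon
      push Not at hcon
      apply hx
      refine ⟨fun j : Fin n => x (Fin.castLE hn j), Finset.mem_coe.mpr (Finset.mem_univ _), ?_⟩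
      funext i
      show RED_gl (fun j : Fin n => x (Fin.castLE hn j)) z i = x i
      unfold RED_gl
      by_cases h : i.val < n
      · rw [dif_pos h]
        rfl
      · rw [dif_neg h]
        exact hcon i (by omega)
    obtain ⟨i, hi1, hi2⟩ := h1
    rw [Finset.prod_eq_zero (Finset.mem_univ i), zero_mul]
    unfold RED_A RED_gl
    rw [if_neg hi1, dif_neg hi1, Matrix.one_apply_ne hi2]
  · intro u' _
    congr 1
    apply Finset.prod_of_injOn (fun j : Fin n => Fin.castLE hn j)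
    · intro j1 _ j2 _ h12
      exact Fin.castLE_injective hn h12
    · intro j _
      exact Finset.mem_coe.mpr (Finset.mem_univ _)
    · intro i _ hi
      have h1 : ¬ i.val < n := by
        intro h
        exact hi ⟨⟨i.val, h⟩, Finset.mem_coe.mpr (Finset.mem_univ _), Fin.ext rfl⟩
      unfold RED_A RED_gl
      rw [if_neg h1, dif_neg h1, dif_neg h1, Matrix.one_apply_eq]
    · intro j _
      rw [RED_gl_castLE, RED_gl_castLE]
      unfold RED_A
      rw [if_pos (by simp)]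

/-- the factor on the other places -/
noncomputable def RED_P {D N : ℕ} (U : Matrix (Fin D) (Fin D) ℂ) (n : ℕ) (z z' : Fin N → Fin D) : ℂ :=
  ∏ i : Fin N, if i.val < n then 1 else U (z i) (z' i)

theorem RED_TP' {D N : ℕ} (U : Matrix (Fin D) (Fin D) ℂ) (n : ℕ) (hn : n ≤ N)
    (u u' : Fin n → Fin D) (z z' : Fin N → Fin D) :
    TP (RED_A' U N n) (RED_gl u z) (RED_gl u' z') = if u' = u then RED_P U n z z' else 0 := by
  unfold TP RED_P
  by_cases h : u' = u
  · subst h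
    rw [if_pos rfl]
    apply Finset.prod_congr rfl
    intro i _
    unfold RED_A' RED_gl
    by_cases hi : i.val < n
    · rw [if_pos hi, if_pos hi, dif_pos hi, dif_pos hi, Matrix.one_apply_eq]
    · rw [if_neg hi, if_neg hi, dif_neg hi, dif_neg hi]
  · rw [if_neg h]
    obtain ⟨j, hj⟩ := Function.ne_iff.mp h
    apply Finset.prod_eq_zero (Finset.mem_univ (Fin.castLE hn j))
    rw [RED_gl_castLE, RED_gl_castLE]
    unfold RED_A'
    rw [if_pos (by simp), Matrix.one_apply_ne (fun h' => hj h'.symm)]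

theorem RED_R2 {D N : ℕ} (U : Matrix (Fin D) (Fin D) ℂ) (hN : 0 < N) (n : ℕ) (hn : n ≤ N)
    (ψ : (Fin N → Fin D) → ℂ) :
    RED_M n ((TP (RED_A' U N n)).mulVec ψ) = RED_M n ψ * (TP (RED_A' U N n))ᵀ := by
  ext u z
  have hD : (D : ℂ) ^ n ≠ 0 := by
    have : 0 < D := (z ⟨0, hN⟩).pos
    exact pow_ne_zero _ (by exact_mod_cast this.ne')
  rw [Matrix.mul_apply]
  apply mul_left_cancel₀ hD
  have h1 : (D : ℂ) ^ n * RED_M n ((TP (RED_A' U N n)).mulVec ψ) u z =
      ∑ z', RED_P U n z z' * ψ (RED_gl u z') := by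
    have e1 : RED_M n ((TP (RED_A' U N n)).mulVec ψ) u z =
        ∑ x, TP (RED_A' U N n) (RED_gl u z) x * ψ x := rfl
    have e2 := RED_sum n hn (fun x => TP (RED_A' U N n) (RED_gl u z) x * ψ x)
    rw [e1]
    rw [nsmul_eq_mul] at e2
    push_cast at e2
    rw [← e2]
    simp only [RED_TP' U n hn]
    simp only [ite_mul, zero_mul]
    rw [Finset.sum_comm]
    apply Finset.sum_congr rfl
    intro z' _
    simp
  have h2 : (D : ℂ) ^ n * ∑ z', RED_M n ψ u z' * (TP (RED_A' U N n))ᵀ z' z =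
      ∑ z', RED_P U n z z' * ψ (RED_gl u z') := by
    have e2 := RED_sum n hn (fun z' => RED_M n ψ u z' * (TP (RED_A' U N n))ᵀ z' z)
    rw [nsmul_eq_mul] at e2
    push_cast at e2
    rw [← e2, Finset.sum_comm]
    apply Finset.sum_congr rfl
    intro z' _
    have e3 : ∀ w : Fin n → Fin D, RED_M n ψ u (RED_gl w z') *
        (TP (RED_A' U N n))ᵀ (RED_gl w z') z =
        if w = (fun j : Fin n => z (Fin.castLE hn j)) then RED_P U n z z' * ψ (RED_gl u z') else 0 := by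
      intro w
      rw [Matrix.transpose_apply]
      conv_lhs => rw [← RED_gl_self hn z]
      rw [RED_TP' U n hn]
      unfold RED_M
      rw [RED_gl_gl]
      split_ifs
      · ring
      · ring
    simp only [e3]
    simp
  rw [h1, h2]

theorem RED_inv {D k : ℕ} (U : Matrix (Fin D) (Fin D) ℂ)
    (hU : U ∈ Matrix.unitaryGroup (Fin D) ℂ) (n : ℕ) (hn : n ≤ k + 1)
    (ψ : (Fin (k + 1) → Fin D) → ℂ) :
    RED_R n ((tpow U (k + 1)).mulVec ψ) = tpow U n * RED_R n ψ * (tpow U n)ᴴ := by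
  have h1 : RED_M n ((tpow U (k + 1)).mulVec ψ) =
      tpow U n * (RED_M n ψ * (TP (RED_A' U (k + 1) n))ᵀ) := by
    rw [RED_A_mul U (k + 1) n, ← Matrix.mulVec_mulVec, RED_R1 U n hn, RED_R2 U (Nat.succ_pos k) n hn]
  have h2 : (TP (RED_A' U (k + 1) n))ᵀ * ((TP (RED_A' U (k + 1) n))ᵀ)ᴴ = 1 := by
    have hu : TP (RED_A' U (k + 1) n) ∈ Matrix.unitaryGroup (Fin (k + 1) → Fin D) ℂ := by
      apply TP_unitary
      intro i
      unfold RED_A'
      split_ifs
      · exact one_mem _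
      · exact hU
    rw [Matrix.mem_unitaryGroup_iff', Matrix.star_eq_conjTranspose] at hu
    have e : ((TP (RED_A' U (k + 1) n))ᵀ)ᴴ = ((TP (RED_A' U (k + 1) n))ᴴ)ᵀ := by
      ext x y
      rfl
    rw [e, ← Matrix.transpose_mul, hu, Matrix.transpose_one]
  unfold RED_R
  rw [h1, Matrix.conjTranspose_mul, Matrix.conjTranspose_mul]
  calc tpow U n * (RED_M n ψ * (TP (RED_A' U (k + 1) n))ᵀ) *
        (((TP (RED_A' U (k + 1) n))ᵀ)ᴴ * (RED_M n ψ)ᴴ * (tpow U n)ᴴ)
      = tpow U n * RED_M n ψ * ((TP (RED_A' U (k + 1) n))ᵀ * ((TP (RED_A' U (k + 1) n))ᵀ)ᴴ) *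
        (RED_M n ψ)ᴴ * (tpow U n)ᴴ := by simp only [Matrix.mul_assoc]
    _ = _ := by rw [h2, Matrix.mul_one]; simp only [Matrix.mul_assoc]

theorem RED_diag_le {D k : ℕ} (n : ℕ) (hn : n ≤ k + 1) (ψ : (Fin (k + 1) → Fin D) → ℂ)
    (h : ∑ x, ‖ψ x‖ ^ 2 = 1) (u : Fin n → Fin D) :
    ∑ z, ‖ψ (RED_gl u z)‖ ^ 2 ≤ (D : ℝ) ^ n := by
  have h1 := RED_sum n hn (fun x => ‖ψ x‖ ^ 2)
  rw [h, nsmul_eq_mul, mul_one] at h1
  push_cast at h1
  rw [← h1]
  exact Finset.single_le_sum (f := fun u => ∑ z, ‖ψ (RED_gl u z)‖ ^ 2)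
    (fun _ _ => Finset.sum_nonneg fun _ _ => sq_nonneg _) (Finset.mem_univ u)

theorem RED_bound {D k : ℕ} (n : ℕ) (hn : n ≤ k + 1) (ψ : (Fin (k + 1) → Fin D) → ℂ)
    (h : ∑ x, ‖ψ x‖ ^ 2 = 1) (u v : Fin n → Fin D) : ‖RED_R n ψ u v‖ ≤ (D : ℝ) ^ n := by
  rw [RED_R_apply]
  refine (norm_sum_le _ _).trans ?_
  have h1 : ∀ z, ‖ψ (RED_gl u z) * star (ψ (RED_gl v z))‖ ≤
      (‖ψ (RED_gl u z)‖ ^ 2 + ‖ψ (RED_gl v z)‖ ^ 2) / 2 := by
    intro z
    rw [norm_mul, norm_star]
    nlinarith [sq_nonneg (‖ψ (RED_gl u z)‖ - ‖ψ (RED_gl v z)‖)]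
  refine (Finset.sum_le_sum fun z _ => h1 z).trans ?_
  rw [← Finset.sum_div, Finset.sum_add_distrib]
  have h2 := RED_diag_le n hn ψ h u
  have h3 := RED_diag_le n hn ψ h v
  linarith

theorem RED_trace {D k : ℕ} (n : ℕ) (hn : n ≤ k + 1) (ψ : (Fin (k + 1) → Fin D) → ℂ)
    (h : ∑ x, ‖ψ x‖ ^ 2 = 1) : (RED_R n ψ).trace = (D : ℂ) ^ n := by
  have h1 := RED_sum n hn (fun x => ψ x * star (ψ x))
  rw [RED_norm_sq h, nsmul_eq_mul, mul_one] at h1
  push_cast at h1
  rw [← h1]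
  rfl

theorem RED_begins {D k n : ℕ} (hn : n ≤ k + 1) (u w : Fin n → Fin D) (z : Fin (k + 1) → Fin D) :
    Begins (RED_gl u z) w ↔ u = w := by
  constructor
  · intro h
    funext j
    have := h j (by omega)
    rw [← this]
    unfold RED_gl
    rw [dif_pos j.isLt]
  · rintro rfl i hi
    unfold RED_gl
    rw [dif_pos i.isLt]

theorem RED_prob {D k : ℕ} (n : ℕ) (hn : n ≤ k + 1) (ψ : (Fin (k + 1) → Fin D) → ℂ)
    (w : Fin n → Fin D) : RED_R n ψ w w = (D : ℂ) ^ n * (prob ψ w : ℝ) := by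
  have h1 := RED_sum n hn (fun x => if Begins x w then ψ x * star (ψ x) else 0)
  simp only [RED_begins hn] at h1
  rw [nsmul_eq_mul] at h1
  push_cast at h1
  have e1 : ∑ u : Fin n → Fin D, ∑ z : Fin (k + 1) → Fin D,
      (if u = w then ψ (RED_gl u z) * star (ψ (RED_gl u z)) else 0) = RED_R n ψ w w := by
    rw [RED_R_apply, Finset.sum_comm]
    apply Finset.sum_congr rfl
    intro z _
    simp
  have e2 : ∑ x : Fin (k + 1) → Fin D, (if Begins x w then ψ x * star (ψ x) else 0) =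
      ((prob ψ w : ℝ) : ℂ) := by
    unfold prob
    rw [← Finset.sum_filter, Complex.ofReal_sum]
    apply Finset.sum_congr rfl
    intro x _
    rw [Complex.star_def, Complex.mul_conj, Complex.normSq_eq_norm_sq]
  rw [e1, e2] at h1
  exact h1

theorem reduced {D k : ℕ} (U : Matrix (Fin D) (Fin D) ℂ)
    (hU : U ∈ Matrix.unitaryGroup (Fin D) ℂ) (ψ : (Fin (k + 1) → Fin D) → ℂ)
    (hψ : IsEigen U ψ) :
    ∃ ρ : ∀ n : ℕ, Matrix (Fin n → Fin D) (Fin n → Fin D) ℂ,
      (∀ n, (ρ n).PosSemidef) ∧ (∀ n, n ≤ k → (ρ n).trace = 1) ∧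
      (∀ n, n + 1 ≤ k → ∀ u v : Fin n → Fin D,
        ∑ c, ρ (n + 1) (Fin.snoc (α := fun _ => Fin D) u c) (Fin.snoc (α := fun _ => Fin D) v c)
          = ρ n u v) ∧
      (∀ n, n + 1 ≤ k → ∀ u v : Fin n → Fin D,
        ∑ c, ρ (n + 1) (Fin.cons (α := fun _ => Fin D) c u) (Fin.cons (α := fun _ => Fin D) c v)
          = ρ n u v) ∧
      (∀ n, n ≤ k → tpow U n * ρ n * (tpow U n)ᴴ = ρ n) ∧
      (∀ n, n ≤ k → ∀ w : Fin n → Fin D, ρ n w w = prob ψ w) ∧
      (∀ n, ∀ u v : Fin n → Fin D, ‖ρ n u v‖ ≤ 1) := by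
  obtain ⟨h1, a, ha⟩ := hψ
  have haa : a * star a = 1 := RED_unimod U hU ψ h1 a ha
  have hD0 : 0 < D := by
    rcases Nat.eq_zero_or_pos D with h | h
    · exfalso
      subst h
      have : IsEmpty (Fin (k + 1) → Fin 0) := ⟨fun x => (x 0).elim0⟩
      rw [Finset.univ_eq_empty, Finset.sum_empty] at h1
      exact zero_ne_one h1
    · exact h
  have hDr : ∀ n : ℕ, 0 < ((D : ℝ) ^ n)⁻¹ := fun n => by positivity
  have hDc : ∀ n : ℕ, (D : ℂ) ^ n ≠ 0 := fun n => pow_ne_zero _ (by exact_mod_cast hD0.ne')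
  set s : ℕ → ℂ := fun n => ((((D : ℝ) ^ n)⁻¹ : ℝ) : ℂ) with hs
  have hs1 : ∀ n, s n = ((D : ℂ) ^ n)⁻¹ := by
    intro n
    rw [hs]
    push_cast
    rfl
  have hs0 : ∀ n, s n * (D : ℂ) ^ n = 1 := by
    intro n
    rw [hs1, inv_mul_cancel₀ (hDc n)]
  have hs2 : ∀ n, s (n + 1) * (D : ℂ) = s n := by
    intro n
    rw [hs1, hs1, pow_succ, mul_inv, mul_assoc, inv_mul_cancel₀ (by exact_mod_cast hD0.ne'), mul_one]
  refine ⟨fun n => if n ≤ k then s n • RED_R n ψ else 0, ?_, ?_, ?_, ?_, ?_, ?_, ?_⟩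
  · intro n
    show (if n ≤ k then s n • RED_R n ψ else 0).PosSemidef
    split_ifs
    · apply Matrix.PosSemidef.smul
      · exact Matrix.posSemidef_self_mul_conjTranspose _
      · rw [hs]
        exact Complex.zero_le_real.mpr (hDr n).le
    · exact Matrix.PosSemidef.zero
  · intro n hn
    show (if n ≤ k then s n • RED_R n ψ else 0).trace = 1
    rw [if_pos hn, Matrix.trace_smul, RED_trace n (by omega) ψ h1, smul_eq_mul, hs0]
  · intro n hn u v
    simp only [if_pos hn, if_pos (show n ≤ k by omega), Matrix.smul_apply, smul_eq_mul]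
    rw [← Finset.mul_sum, RED_right n (by omega), nsmul_eq_mul, ← mul_assoc, hs2]
  · intro n hn u v
    simp only [if_pos hn, if_pos (show n ≤ k by omega), Matrix.smul_apply, smul_eq_mul]
    rw [← Finset.mul_sum, RED_left0 n, ← RED_step U hU n (by omega), nsmul_eq_mul, ← mul_assoc, hs2]
    have : baker U ψ = fun x => a * ψ x := funext ha
    rw [this, RED_R_scale n ψ a haa]
  · intro n hn
    simp only [if_pos hn]
    rw [Matrix.mul_smul, Matrix.smul_mul, ← RED_inv U hU n (by omega), ← baker_full,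
      RED_iter U ψ a ha]
    congr 1
    apply RED_R_scale
    rw [star_pow, ← mul_pow, haa, one_pow]
  · intro n hn w
    simp only [if_pos hn, Matrix.smul_apply, smul_eq_mul]
    rw [RED_prob n (by omega), ← mul_assoc, hs0, one_mul]
  · intro n u v
    by_cases hn : n ≤ k
    · simp only [if_pos hn, Matrix.smul_apply, smul_eq_mul]
      rw [norm_mul]
      have e : ‖s n‖ = ((D : ℝ) ^ n)⁻¹ := by
        rw [hs]
        simp only [Complex.norm_real, Real.norm_eq_abs]
        exact abs_of_pos (hDr n)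
      rw [e]
      calc ((D : ℝ) ^ n)⁻¹ * ‖RED_R n ψ u v‖ ≤ ((D : ℝ) ^ n)⁻¹ * (D : ℝ) ^ n :=
            mul_le_mul_of_nonneg_left (RED_bound n (by omega) ψ h1 u v) (hDr n).le
        _ = 1 := inv_mul_cancel₀ (pow_ne_zero _ (by exact_mod_cast hD0.ne'))
    · simp only [if_neg hn, Matrix.zero_apply, norm_zero]
      exact zero_le_one

end Pool.Agent.helper65.WB
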